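import Pool.Agent.H19.TR.CubeUnif
import Pool.Agent.H19.TR.CubeFixed

/-!
MP_b12e0e_ag (number of typical ranks of real tensors): for cubes of every order `n ≥ 3` all
typical ranks, and the maximal rank, are almost equal to the smallest possible value.
-/

set_option autoImplicit false

open Set Function Module

namespace Pool.Agent.H93.Spare.EveryOrder

/-- The real `q x .. x q` tensor `T` with `n` factors is a sum of `r` products of vectors (zero
vectors being allowed). -/
def IsSum (n q : ℕ) (T : (Fin n → Fin q) → ℝ) (r : ℕ) : Prop :=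
  ∃ v : Fin r → Fin n → Fin q → ℝ, T = fun x => ∑ k : Fin r, ∏ i : Fin n, v k i (x i)

/-- `r` is a typical rank of the real `q x .. x q` tensors with `n` factors: the set of the tensors
which are sums of `r` products, but not of fewer, has nonempty interior. -/
def Typical (n q r : ℕ) : Prop :=
  (interior {T : (Fin n → Fin q) → ℝ | IsSum n q T r ∧ ∀ s < r, ¬ IsSum n q T s}).Nonempty

/-- The smallest possible value `q ^ n / (1 + n * (q - 1))` of a typical rank. -/
noncomputable def low (n q : ℕ) : ℝ := (q : ℝ) ^ n / (n * ((q : ℝ) - 1) + 1)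

open Pool.Agent.H19.TR Pool.Agent.H93.TR

private theorem typical_le {n q : ℕ} {R : ℕ} (h : ∀ T, IsSum n q T R) {r : ℕ}
    (hr : Typical n q r) : r ≤ R := by
  obtain ⟨T, hT⟩ := hr
  by_contra hlt
  push Not at hlt
  exact (interior_subset hT).2 R hlt (h T)

private theorem lower {n : ℕ} (d : Fin n → ℕ) (hd : ∀ i, 1 ≤ d i) (i₀ : Fin n)
    (r : ℕ) (hr : (interior {T : ((i : Fin n) → Fin (d i)) → ℝ |
      (∃ v : Fin r → (i : Fin n) → Fin (d i) → ℝ, T = fun x => ∑ k : Fin r,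
        ∏ i : Fin n, v k i (x i))}).Nonempty) : ∏ i, d i ≤ r * (∑ i, (d i - 1) + 1) := by
  have : ∀ j, Nonempty (Oth d i₀ j) := fun j => ⟨⟨0, hd j.1⟩⟩
  have key : Fintype.card ((j : {j : Fin n // j ≠ i₀}) → Oth d i₀ j) * d i₀ ≤
      r * (sdim (Oth d i₀) + d i₀) := by
    by_contra hlt
    push Not at hlt
    have hden : Dense {T : ((i : Fin n) → Fin (d i)) → ℝ |
        slices d i₀ T ∈ (RLE (Oth d i₀) (Fin (d i₀)) r)ᶜ} :=
      (dense_compl_RLE (α := Oth d i₀) (β := Fin (d i₀)) r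
        (by rw [Fintype.card_fin]; exact hlt)).preimage (slices d i₀).isOpenMap
    obtain ⟨T, hTi, hT⟩ := hden.inter_open_nonempty _ isOpen_interior hr
    have hT2 : ∃ v : Fin r → (i : Fin n) → Fin (d i) → ℝ, T = fun x => ∑ k : Fin r,
        ∏ i : Fin n, v k i (x i) := interior_subset (s := {T : ((i : Fin n) → Fin (d i)) → ℝ |
      (∃ v : Fin r → (i : Fin n) → Fin (d i) → ℝ, T = fun x => ∑ k : Fin r,
        ∏ i : Fin n, v k i (x i))}) hTi
    exact hT ((slices_mem_RLE d i₀ T r).2 hT2)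
  rw [card_Oth, sdim_Oth, mul_comm, Finset.mul_prod_erase _ _ (Finset.mem_univ i₀)] at key
  rw [← Finset.add_sum_erase _ _ (Finset.mem_univ i₀)]
  have := hd i₀
  refine key.trans (le_of_eq ?_)
  congr 1
  omega

private theorem lower_real {n q : ℕ} (hn : 1 ≤ n) (hq : 1 ≤ q) (r : ℕ) (hr : Typical n q r) :
    low n q ≤ r := by
  have h0 : (interior {T : (Fin n → Fin q) → ℝ |
      (∃ v : Fin r → Fin n → Fin q → ℝ, T = fun x => ∑ k : Fin r,
        ∏ i : Fin n, v k i (x i))}).Nonempty :=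
    hr.mono (interior_mono fun T hT => hT.1)
  have h1 := lower (fun _ : Fin n => q) (fun _ => hq) ⟨0, hn⟩ r h0
  rw [Finset.sum_const, Finset.prod_const, Finset.card_univ, Fintype.card_fin, smul_eq_mul] at h1
  have h2 : ((q ^ n : ℕ) : ℝ) ≤ ((r * (n * (q - 1) + 1) : ℕ) : ℝ) := by exact_mod_cast h1
  push_cast [Nat.cast_sub hq] at h2
  have h3 : (0 : ℝ) ≤ n * ((q : ℝ) - 1) := by
    have : (1 : ℝ) ≤ q := by exact_mod_cast hq
    have h4 : (0 : ℝ) ≤ (q : ℝ) - 1 := by linarith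
    positivity
  unfold low
  rw [div_le_iff₀ (by linarith)]
  exact h2

/-- For every `ε > 0` there is `N₀` such that for all `n ≥ 3` and `q ≥ 2` with `N₀ ≤ q ^ n` all
typical ranks of the real `q x .. x q` tensors with `n` factors are between
`low = q ^ n / (1 + n * (q - 1))` and `(1 + ε) * low`, and indeed all these tensors are sums of `R`
products, for some `R ≤ (1 + ε) * low`. -/
theorem result (ε : ℝ) (hε : 0 < ε) : ∃ N₀ : ℕ, ∀ n q : ℕ, 3 ≤ n → 2 ≤ q → N₀ ≤ q ^ n →
    (∀ r, Typical n q r → low n q ≤ r ∧ r ≤ (1 + ε) * low n q) ∧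
    ∃ R : ℕ, (R : ℝ) ≤ (1 + ε) * low n q ∧ ∀ T, IsSum n q T R := by
  obtain ⟨N₀, hN₀⟩ := cube_unif (fun n hn ε hε => cube_fixed n hn ε hε) ε hε
  refine ⟨N₀, fun n q hn hq hN => ?_⟩
  obtain ⟨R, hR, hT⟩ := hN₀ n q hn hq hN
  have hT' : ∀ T, IsSum n q T R := by
    intro T
    obtain ⟨v, hv⟩ := hT T
    refine ⟨v, ?_⟩
    rw [hv]
    funext x
    rw [Finset.sum_apply]
    rfl
  refine ⟨fun r hr => ⟨lower_real (by omega) (by omega) r hr, ?_⟩, R, hR, hT'⟩
  have h2 : (r : ℝ) ≤ R := by exact_mod_cast typical_le hT' hr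
  exact h2.trans hR

end Pool.Agent.H93.Spare.EveryOrder
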