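import Pool.Agent.H93.TR.Fmt

/-!
MP_b12e0e_ag (number of typical ranks of real tensors): in the formats of the perfect codes (and
of their mixed versions) the typical ranks lie in a short interval above the smallest possible
value.
-/

set_option autoImplicit false

open Set Function Module

namespace Pool.Agent.H93.Spare.PerfectCodes

/-- The real tensor `T` of format `d` is a sum of `r` products of vectors (zero vectors being
allowed). -/
def IsSum {n : ℕ} (d : Fin n → ℕ) (T : ((i : Fin n) → Fin (d i)) → ℝ) (r : ℕ) : Prop :=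
  ∃ v : Fin r → (i : Fin n) → Fin (d i) → ℝ, T = fun x => ∑ k : Fin r, ∏ i : Fin n, v k i (x i)

/-- `r` is a typical rank of the format `d`: the set of the tensors which are sums of `r` products,
but not of fewer, has nonempty interior. -/
def Typical {n : ℕ} (d : Fin n → ℕ) (r : ℕ) : Prop :=
  (interior {T : ((i : Fin n) → Fin (d i)) → ℝ | IsSum d T r ∧ ∀ s < r, ¬ IsSum d T s}).Nonempty

open Pool.Agent.H19.TR Pool.Agent.H93.TR

private theorem typical_le {n : ℕ} {d : Fin n → ℕ} {R : ℕ} (h : ∀ T, IsSum d T R) {r : ℕ}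
    (hr : Typical d r) : r ≤ R := by
  obtain ⟨T, hT⟩ := hr
  by_contra hlt
  push Not at hlt
  exact (interior_subset hT).2 R hlt (h T)

private theorem lower {n : ℕ} (d : Fin n → ℕ) (hd : ∀ i, 1 ≤ d i) (i₀ : Fin n)
    (r : ℕ) (hr : Typical d r) : ∏ i, d i ≤ r * (∑ i, (d i - 1) + 1) := by
  have : ∀ j, Nonempty (Oth d i₀ j) := fun j => ⟨⟨0, hd j.1⟩⟩
  have key : Fintype.card ((j : {j : Fin n // j ≠ i₀}) → Oth d i₀ j) * d i₀ ≤
      r * (sdim (Oth d i₀) + d i₀) := by
    by_contra hlt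
    push Not at hlt
    have hden : Dense {T : ((i : Fin n) → Fin (d i)) → ℝ |
        slices d i₀ T ∈ (RLE (Oth d i₀) (Fin (d i₀)) r)ᶜ} :=
      (dense_compl_RLE (α := Oth d i₀) (β := Fin (d i₀)) r
        (by rw [Fintype.card_fin]; exact hlt)).preimage (slices d i₀).isOpenMap
    obtain ⟨T, hTi, hT⟩ := hden.inter_open_nonempty _ isOpen_interior hr
    exact hT ((slices_mem_RLE d i₀ T r).2 (interior_subset hTi).1)
  rw [card_Oth, sdim_Oth, mul_comm, Finset.mul_prod_erase _ _ (Finset.mem_univ i₀)] at key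
  rw [← Finset.add_sum_erase _ _ (Finset.mem_univ i₀)]
  have := hd i₀
  refine key.trans (le_of_eq ?_)
  congr 1
  omega

/-- Let the finite abelian group `G` be the union of the subgroups `H 0, .., H (n-1)` of orders
`d i`, and let `D` be `(card G - 1) * n`, or `(card G - 1) / 2 * n` if `card G` is odd, or
`card G - 1` if `2 G = 0`. Then `card G` divides `N = ∏ d i`, all real tensors of the format `d` are
sums of `N / card G + D` products, and all typical ranks `r` satisfy `N ≤ r * (∑ (d i - 1) + 1)` and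
`r ≤ N / card G + D`. In particular, let `q` be a prime power, `1 ≤ m`,
`1 + q + .. + q ^ (m-1) ≤ n`, and `D = q ^ m - 1` if `q` is even, `D = (q ^ m - 1) / 2 * n` if
`q` is odd. Then all real `q × .. × q` tensors with `n` factors are sums of `q ^ (n - m) + D`
products, so that all typical ranks are at most `q ^ (n - m) + D`; if
`n = 1 + q + .. + q ^ (m-1)`, all typical ranks are at least `q ^ (n - m)`. -/
theorem result :
    (∀ (G : Type) [AddCommGroup G] [Finite G] (n : ℕ) (H : Fin n → AddSubgroup G)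
      (d : Fin n → ℕ), (∀ g : G, ∃ i, g ∈ H i) → (∀ i, Nat.card (H i) = d i) →
      Nat.card G ∣ ∏ i, d i ∧
      ∀ D : ℕ, (D = (Nat.card G - 1) * n ∨
          (Odd (Nat.card G) ∧ D = (Nat.card G - 1) / 2 * n) ∨
          ((∀ g : G, g + g = 0) ∧ D = Nat.card G - 1)) →
        (∀ T, IsSum d T ((∏ i, d i) / Nat.card G + D)) ∧
        ∀ r, Typical d r →
          ∏ i, d i ≤ r * (∑ i, (d i - 1) + 1) ∧ r ≤ (∏ i, d i) / Nat.card G + D) ∧
    (∀ q m n : ℕ, IsPrimePow q → 1 ≤ m → ∑ i ∈ Finset.range m, q ^ i ≤ n →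
      (∀ T, IsSum (fun _ : Fin n => q) T
        (q ^ (n - m) + if Even q then q ^ m - 1 else (q ^ m - 1) / 2 * n)) ∧
      ∀ r, Typical (fun _ : Fin n => q) r →
        (r ≤ q ^ (n - m) + if Even q then q ^ m - 1 else (q ^ m - 1) / 2 * n) ∧
        (n = ∑ i ∈ Finset.range m, q ^ i → q ^ (n - m) ≤ r)) := by
  have h1 : ∀ (G : Type) [AddCommGroup G] [Finite G] (n : ℕ) (H : Fin n → AddSubgroup G)
      (d : Fin n → ℕ), (∀ g : G, ∃ i, g ∈ H i) → (∀ i, Nat.card (H i) = d i) →
      Nat.card G ∣ ∏ i, d i ∧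
      ∀ D : ℕ, (D = (Nat.card G - 1) * n ∨
          (Odd (Nat.card G) ∧ D = (Nat.card G - 1) / 2 * n) ∨
          ((∀ g : G, g + g = 0) ∧ D = Nat.card G - 1)) →
        (∀ T, IsSum d T ((∏ i, d i) / Nat.card G + D)) ∧
        ∀ r, Typical d r →
          ∏ i, d i ≤ r * (∑ i, (d i - 1) + 1) ∧ r ≤ (∏ i, d i) / Nat.card G + D := by
    intro G _ _ n H d hH hd
    obtain ⟨C, hC, ha, hb, hc⟩ := upper_fmt H hH d hd
    have hdiv : (∏ i, d i) / Nat.card G = C := by
      rw [← hC, Nat.mul_div_cancel _ Nat.card_pos]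
    rw [hdiv]
    refine ⟨⟨C, by rw [← hC, mul_comm]⟩, fun D hD => ?_⟩
    have hup : ∀ T, IsSum d T (C + D) := by
      rcases hD with h | ⟨ho, h⟩ | ⟨h2, h⟩
      · rw [h]; exact ha
      · rw [h]; exact hb ho
      · rw [h]; exact hc h2
    obtain ⟨i₀, -⟩ := hH 0
    exact ⟨hup, fun r hr => ⟨lower d (fun i => by rw [← hd i]; exact Nat.card_pos) i₀ r hr,
      typical_le hup hr⟩⟩
  refine ⟨h1, ?_⟩
  intro q m n hq hm hn
  have hq2 : 2 ≤ q := hq.two_le
  obtain ⟨p, e, hp, he, rfl⟩ := hq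
  have hpp : Nat.Prime p := Nat.prime_iff.2 hp
  have : Fact p.Prime := ⟨hpp⟩
  -- the field
  have hF : Nat.card (GaloisField p e) = p ^ e := GaloisField.card p e he.ne'
  have : Finite (GaloisField p e) := Nat.finite_of_card_ne_zero (by rw [hF]; positivity)
  have hG : Nat.card (Fin m → GaloisField p e) = (p ^ e) ^ m := by
    rw [Nat.card_fun, hF, Nat.card_fin]
  obtain ⟨H, hH, hHc⟩ := lines (GaloisField p e) hF m n hm hn
  have heven : Even (p ^ e) → ∀ g : Fin m → GaloisField p e, g + g = 0 := by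
    intro h g
    have hp2 : p = 2 := by
      have h2 : 2 ∣ p ^ e := h.two_dvd
      exact ((Nat.prime_dvd_prime_iff_eq Nat.prime_two hpp).1
        (Nat.prime_two.dvd_of_dvd_pow h2)).symm
    subst hp2
    funext j
    exact CharTwo.add_self_eq_zero (g j)
  have hodd : ¬ Even (p ^ e) → Odd (Nat.card (Fin m → GaloisField p e)) := by
    intro h
    rw [hG]
    exact (Nat.not_even_iff_odd.1 h).pow
  obtain ⟨-, hD⟩ := h1 (Fin m → GaloisField p e) n H (fun _ => p ^ e) hH hHc
  have hD' := hD (if Even (p ^ e) then (p ^ e) ^ m - 1 else ((p ^ e) ^ m - 1) / 2 * n) (by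
    rw [hG]
    split_ifs with h
    · exact Or.inr (Or.inr ⟨heven h, rfl⟩)
    · exact Or.inr (Or.inl ⟨hG ▸ hodd h, rfl⟩))
  clear hD hodd heven
  rw [hG] at hD'
  generalize p ^ e = q at *
  have hmn : m ≤ n := by
    refine le_trans ?_ hn
    calc m = ∑ i ∈ Finset.range m, 1 := by simp
      _ ≤ _ := Finset.sum_le_sum fun i _ => Nat.one_le_pow _ _ (by omega)
  have hN : ∏ _i : Fin n, q = q ^ n := by simp
  have hdiv : q ^ n / q ^ m = q ^ (n - m) := Nat.pow_div hmn (by omega)
  rw [hN, hdiv] at hD'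
  refine ⟨hD'.1, fun r hr => ⟨(hD'.2 r hr).2, fun hn' => ?_⟩⟩
  have hgeom : n * (q - 1) + 1 = q ^ m := by
    rw [hn']
    exact geom_nat q m (by omega)
  have h3 := (hD'.2 r hr).1
  have h4 : ∑ _i : Fin n, (q - 1) + 1 = q ^ m := by
    rw [← hgeom]
    simp
  rw [h4, ← Nat.sub_add_cancel hmn, pow_add] at h3
  exact Nat.le_of_mul_le_mul_right h3 (by positivity)

end Pool.Agent.H93.Spare.PerfectCodes
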