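import Pool.Agent.H93.TR.ThreeFin
import Pool.Agent.H24.TR.Glue3

/-!
MP_b12e0e_ag (number of typical ranks of real tensors): if at least three of the dimensions are
large, all typical ranks, and the maximal rank, are asymptotically equal to the smallest possible
value.
-/

set_option autoImplicit false

open Set Function Module

namespace Pool.Agent.H93.Spare.ThreeLarge

/-- The real tensor `T` of format `d` is a sum of `r` products of vectors (zero vectors being
allowed). -/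
def IsSum {n : ℕ} (d : Fin n → ℕ) (T : ((i : Fin n) → Fin (d i)) → ℝ) (r : ℕ) : Prop :=
  ∃ v : Fin r → (i : Fin n) → Fin (d i) → ℝ, T = fun x => ∑ k : Fin r, ∏ i : Fin n, v k i (x i)

/-- `r` is a typical rank of the format `d`: the set of the tensors which are sums of `r` products,
but not of fewer, has nonempty interior. -/
def Typical {n : ℕ} (d : Fin n → ℕ) (r : ℕ) : Prop :=
  (interior {T : ((i : Fin n) → Fin (d i)) → ℝ | IsSum d T r ∧ ∀ s < r, ¬ IsSum d T s}).Nonempty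

/-- The smallest possible value `N / (1 + ∑ (d i - 1))` of a typical rank, where `N = ∏ d i`. -/
noncomputable def low {n : ℕ} (d : Fin n → ℕ) : ℝ :=
  (∏ i, (d i : ℝ)) / (∑ i, ((d i : ℝ) - 1) + 1)

open Pool.Agent.H19.TR Pool.Agent.H93.TR

private theorem typical_le {n : ℕ} {d : Fin n → ℕ} {R : ℕ} (h : ∀ T, IsSum d T R) {r : ℕ}
    (hr : Typical d r) : r ≤ R := by
  obtain ⟨T, hT⟩ := hr
  by_contra hlt
  push Not at hlt
  exact (interior_subset hT).2 R hlt (h T)

private theorem lower {n : ℕ} (d : Fin n → ℕ) (hd : ∀ i, 1 ≤ d i) (i₀ : Fin n)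
    (r : ℕ) (hr : Typical d r) : ∏ i, d i ≤ r * (∑ i, (d i - 1) + 1) := by
  have : ∀ j, Nonempty (Oth d i₀ j) := fun j => ⟨⟨0, hd j.1⟩⟩
  have key : Fintype.card ((j : {j : Fin n // j ≠ i₀}) → Oth d i₀ j) * d i₀ ≤
      r * (sdim (Oth d i₀) + d i₀) := by
    by_contra hlt
    push Not at hlt
    have hden : Dense {T : ((i : Fin n) → Fin (d i)) → ℝ |
        slices d i₀ T ∈ (RLE (Oth d i₀) (Fin (d i₀)) r)ᶜ} :=
      (dense_compl_RLE (α := Oth d i₀) (β := Fin (d i₀)) r
        (by rw [Fintype.card_fin]; exact hlt)).preimage (slices d i₀).isOpenMap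
    obtain ⟨T, hTi, hT⟩ := hden.inter_open_nonempty _ isOpen_interior hr
    exact hT ((slices_mem_RLE d i₀ T r).2 (interior_subset hTi).1)
  rw [card_Oth, sdim_Oth, mul_comm, Finset.mul_prod_erase _ _ (Finset.mem_univ i₀)] at key
  rw [← Finset.add_sum_erase _ _ (Finset.mem_univ i₀)]
  have := hd i₀
  refine key.trans (le_of_eq ?_)
  congr 1
  omega

private theorem lower_real {n : ℕ} (d : Fin n → ℕ) (hd : ∀ i, 1 ≤ d i) (i₀ : Fin n)
    (r : ℕ) (hr : Typical d r) : low d ≤ r := by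
  have h1 := lower d hd i₀ r hr
  have h2 : ((∏ i, d i : ℕ) : ℝ) ≤ ((r * (∑ i, (d i - 1) + 1) : ℕ) : ℝ) := by exact_mod_cast h1
  have h3 : ((∑ i, (d i - 1) : ℕ) : ℝ) = ∑ i, ((d i : ℝ) - 1) := by
    rw [Nat.cast_sum]
    exact Finset.sum_congr rfl fun i _ => by rw [Nat.cast_sub (hd i), Nat.cast_one]
  push_cast at h2 h3
  rw [h3] at h2
  have h4 : (0 : ℝ) ≤ ∑ i, ((d i : ℝ) - 1) :=
    Finset.sum_nonneg fun i _ => by
      have : (1 : ℝ) ≤ d i := by exact_mod_cast hd i
      linarith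
  unfold low
  rw [div_le_iff₀ (by linarith)]
  exact h2

/-- For every `ε > 0` there is `m` such that for all formats `d 0 x .. x d (n-1)` with `2 ≤ d i`
of which at least three dimensions are at least `m`: all typical ranks are between `low` and
`(1 + ε) * low`, where `low = N / (1 + ∑ (d i - 1))`, `N = ∏ d i`, and all real tensors of the
format `d` are sums of `R` products for some `R ≤ (1 + ε) * low`. -/
theorem result (ε : ℝ) (hε : 0 < ε) :
    ∃ m : ℕ, ∀ (n : ℕ) (d : Fin n → ℕ), (∀ i, 2 ≤ d i) →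
      (∃ i j k, i ≠ j ∧ i ≠ k ∧ j ≠ k ∧ m ≤ d i ∧ m ≤ d j ∧ m ≤ d k) →
      (∀ r, Typical d r → low d ≤ r ∧ r ≤ (1 + ε) * low d) ∧
      ∃ R : ℕ, (R : ℝ) ≤ (1 + ε) * low d ∧ ∀ T, IsSum d T R := by
  obtain ⟨m, hm⟩ := Pool.Agent.H24.TR.glue_three Bdd lwd (fun _ _ => rfl)
    (fun n d a b hab ⟨R, hR, hT⟩ => ⟨R, hR.trans hab, hT⟩) bdd_triv bdd_three
    (fun n k d hn hk hd h => bdd_many n k d hn hk hd h) ε hε
  refine ⟨m, fun n d hd ⟨i, j, k, hij, hik, hjk, hi, hj, hk⟩ => ?_⟩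
  obtain ⟨R, hR, hT⟩ := hm n d i j k hij hik hjk hd hi hj hk
  have hT' : ∀ T, IsSum d T R := by
    intro T
    obtain ⟨v, hv⟩ := hT T
    refine ⟨v, ?_⟩
    rw [hv]
    funext x
    rw [Finset.sum_apply]
    rfl
  refine ⟨fun r hr => ⟨?_, ?_⟩, R, hR, hT'⟩
  · exact lower_real d (fun i => by have := hd i; omega) i r hr
  · have h2 : (r : ℝ) ≤ R := by exact_mod_cast typical_le hT' hr
    exact h2.trans hR

end Pool.Agent.H93.Spare.ThreeLarge
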